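import Mathlib

/-!
# Swap over every field with steps of at most two elements: definitions (helper94's theorem)
-/

set_option autoImplicit false

namespace Pool.Agent.TwoSw

open Finset

variable {K E : Type*} [Field K] [DecidableEq E] {k : ℕ}

/-- `∑ e ∈ A, v e ⊗ w e` as a matrix. -/
def M (v w : E → Fin k → K) (A : Finset E) : Matrix (Fin k) (Fin k) K :=
  Matrix.of fun i j => ∑ e ∈ A, v e i * w e j

/-- `F A = det (∑ e ∈ A, v e ⊗ w e)`, for `A.card = k` this is `det v_A * det w_A`. -/
def F (v w : E → Fin k → K) (A : Finset E) : K := (M v w A).det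

/-- `Y` is a union of components of the graph `G2` on the common bases. -/
def Closed (v w : E → Fin k → K) (Y : Finset E → Prop) : Prop :=
  ∀ A A' : Finset E, A.card = k → A'.card = k → F v w A ≠ 0 → F v w A' ≠ 0 →
    k ≤ (A ∩ A').card + 2 → Y A → Y A'

end Pool.Agent.TwoSw
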